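import Pool.Agent.X139.WT.Dual

/-!
# MP_200d02_pr, Q1: the convex weak transport inequality implies the full one

In every dimension, a probability measure with the inequality `T^-` for a quadratic cost satisfies
`T^-` and `T^+` for a (possibly smaller) quadratic cost.
-/

set_option autoImplicit false

namespace Pool.Agent.Results.MP_200d02_pr.MinusImpliesPlus

open MeasureTheory Set Filter Topology ProbabilityTheory
open scoped ENNReal
open Pool.Agent.X139.WT

theorem result (n : ℕ) (μ : Measure (EuclideanSpace ℝ (Fin n))) [IsProbabilityMeasure μ]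
    (hμ : Integrable (fun x => ‖x‖) μ) (a : ℝ) (ha : 0 < a) (h : TMinus a μ) :
    ∃ a' : ℝ, 0 < a' ∧ TMinus a' μ ∧ TPlus a' μ := by
  have hT : Tm a μ := Tm_of_TMinus ha h hμ
  obtain ⟨a', ha', ha'a, hTp⟩ := Tp_of_Tm ha hT hμ
  have hi : Integrable (fun x : EuclideanSpace ℝ (Fin n) => x) μ :=
    (integrable_norm_iff measurable_id.aestronglyMeasurable).1 hμ
  have hi2 : Integrable (fun x : EuclideanSpace ℝ (Fin n) => ‖x‖ ^ 2) μ :=
    int_of_exp (exp_moment ha hT hμ zero_le_one).1
  exact ⟨a', ha', TMinus_mono ha' ha'a h, TPlus_of_Tp ha' hTp hi hi2⟩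

end Pool.Agent.Results.MP_200d02_pr.MinusImpliesPlus
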